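import Pool.Agent.MP_5c28a4_al.H60S.RlA

/-!
Periodic points, abelian form.
-/

set_option autoImplicit false

namespace Pool.Agent.MP_5c28a4_al.H89S

namespace RlA

open Filter PiTensorProduct

variable {Γ I : Type} [Group Γ] [Fintype I]

theorem noeth (hNI : SNI) (hfg : Group.FG Γ) (hvn : VN Γ) : IsNoetherianRing (QQ Γ) := by
  let σ : (Fin 1 → Γ) ≃ Γ := (Equiv.funUnique (Fin 1) Γ).trans (Equiv.inv Γ)
  let e : QQ (Fin 1 → Γ) ≃ₗ[ℤ] QQ Γ := MonoidAlgebra.mapDomainLinearEquiv ℤ ℤ σ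
  have he : ∀ x y, e (x * y) = e y * e x := by
    intro x y
    induction x using MonoidAlgebra.induction_linear with
    | zero => simp
    | add x x' h h' => rw [add_mul, map_add, map_add, mul_add, h, h']
    | single g a =>
      induction y using MonoidAlgebra.induction_linear with
      | zero => simp
      | add y y' h h' => rw [mul_add, map_add, map_add, add_mul, h, h']
      | single g' a' =>
        simp only [e, MonoidAlgebra.single_mul_single, MonoidAlgebra.mapDomainLinearEquiv_single]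
        rw [mul_comm a a']
        congr 1
        simp [σ]
  refine monotone_stabilizes_iff_noetherian.1 fun f => ?_
  obtain ⟨n, hn⟩ := hNI Γ hfg hvn 1 (fun k => ((f k).restrictScalars ℤ).comap e.toLinearMap)
    (fun a b hab x hx => f.mono hab hx) (fun k x hx s _ => by
      change e (x * s) ∈ f k
      rw [he]
      exact (f k).smul_mem (e s) hx)
  refine ⟨n, fun m hm => Submodule.ext fun x => ?_⟩
  have h := SetLike.ext_iff.1 (hn m hm) (e.symm x)
  simpa using h.symm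

variable {γ : I → Γ}

/-- the elements `(δ - 1) x` -/
def Gn (γ : I → Γ) (Δ : Subgroup Γ) : Set (VV γ) :=
  {x | ∃ δ ∈ Δ, ∃ x' : VV γ, x = (MonoidAlgebra.of ℤ Γ δ - 1) • x'}

theorem tprod_bb {m : ℕ} {Δ : Subgroup Γ} (n : ℕ) (v : Fin m → VV γ) (l : Fin m)
    (h : v l ∈ Submodule.span ℤ (Gn γ Δ)) : tprod ℤ v ∈ bb γ m Δ n := by
  have h1 : Submodule.span ℤ (Gn γ Δ) ≤
      (bb γ m Δ n).comap ((tprod ℤ (s := fun _ : Fin m => VV γ)).toLinearMap v l) := by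
    rw [Submodule.span_le]
    rintro _ ⟨δ, hδ, x, rfl⟩
    refine Submodule.subset_span (Or.inr ⟨Function.update v l x, l, δ, hδ, ?_⟩)
    simp
  simpa using h1 h

theorem fin_gen (hN : IsNoetherianRing (QQ Γ)) (γ : I → Γ) (Δ : Subgroup Γ)
    (hΔ : Δ.FiniteIndex) :
    ∃ X : Set (VV γ), X.Finite ∧ Submodule.span ℤ (X ∪ Gn γ Δ) = ⊤ := by
  obtain ⟨X, hX, hX'⟩ := Submodule.fg_def.1 (IsNoetherian.noetherian (⊤ : Submodule (QQ Γ) (VV γ)))
  refine ⟨Set.image2 (fun (q : Γ ⧸ Δ) x => MonoidAlgebra.of ℤ Γ q.out⁻¹ • x) Set.univ X,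
    Set.finite_univ.image2 _ hX, ?_⟩
  generalize hS : Submodule.span ℤ (Set.image2
    (fun (q : Γ ⧸ Δ) x => MonoidAlgebra.of ℤ Γ q.out⁻¹ • x) Set.univ X ∪ Gn γ Δ) = S
  have key : ∀ v ∈ Submodule.span (QQ Γ) X, ∀ q : QQ Γ, q • v ∈ S := by
    intro v hv
    induction hv using Submodule.span_induction with
    | mem x hx =>
      intro q
      induction q using MonoidAlgebra.induction_on with
      | of g =>
        obtain ⟨h, hh⟩ := QuotientGroup.mk_out_eq_mul Δ g⁻¹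
        have e : MonoidAlgebra.of ℤ Γ g • x =
            MonoidAlgebra.of ℤ Γ (QuotientGroup.mk g⁻¹ : Γ ⧸ Δ).out⁻¹ • x +
            (MonoidAlgebra.of ℤ Γ h - 1) •
              MonoidAlgebra.of ℤ Γ (QuotientGroup.mk g⁻¹ : Γ ⧸ Δ).out⁻¹ • x := by
          have e1 : ∀ (a : QQ Γ) (z : VV γ), z + (a - 1) • z = a • z := fun a z => by
            have e2 : (a - 1) • z = a • z - (1 : QQ Γ) • z := sub_smul a 1 z
            rw [e2, one_smul, add_sub_cancel]
          rw [e1, ← mul_smul, ← map_mul, hh]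
          simp
        rw [e, ← hS]
        exact add_mem (Submodule.subset_span (Or.inl ⟨_, Set.mem_univ _, x, hx, rfl⟩))
          (Submodule.subset_span (Or.inr ⟨h, h.2, _, rfl⟩))
      | add a b ha hb =>
        rw [add_smul]
        exact add_mem ha hb
      | smul r a ha =>
        rw [smul_assoc]
        exact S.smul_mem r ha
    | zero =>
      intro q
      rw [smul_zero]
      exact S.zero_mem
    | add a b _ _ ha hb =>
      intro q
      rw [smul_add]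
      exact add_mem (ha q) (hb q)
    | smul r a _ ha =>
      intro q
      rw [← mul_smul]
      exact ha _
  refine eq_top_iff.2 fun v _ => ?_
  have h := key v (by rw [hX']; trivial) 1
  rwa [one_smul] at h

theorem bb_ext {A : Type} [AddCommGroup A] {m n : ℕ} {Δ : Subgroup Γ} {X : Set (VV γ)}
    (hX : Submodule.span ℤ (X ∪ Gn γ Δ) = ⊤) {σ σ' : TT γ m →ₗ[ℤ] A}
    (h : ∀ t ∈ bb γ m Δ n, σ t = 0) (h' : ∀ t ∈ bb γ m Δ n, σ' t = 0)
    (he : ∀ x : Fin m → X, σ (tprod ℤ fun l => (x l).1) = σ' (tprod ℤ fun l => (x l).1)) :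
    σ = σ' := by
  refine PiTensorProduct.ext_of_span_eq_top (γ := fun _ => ↥(X ∪ Gn γ Δ))
    (g := fun _ j => j.1) (fun _ => by rw [Subtype.range_coe, hX]) fun j => ?_
  by_cases hj : ∀ l, (j l).1 ∈ X
  · exact he fun l => ⟨_, hj l⟩
  · push Not at hj
    obtain ⟨l, hl⟩ := hj
    have h1 := tprod_bb n (fun l => (j l).1) l
      (Submodule.subset_span ((j l).2.resolve_left hl))
    rw [h _ h1, h' _ h1]

theorem act_tprod (θ : Th γ) {m : ℕ} (v : Fin m → VV γ) :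
    act θ m (tprod ℤ v) = tprod ℤ fun l => res θ (v l) := PiTensorProduct.map_tprod _ _

theorem act_one (m : ℕ) (t : TT γ m) : act 1 m t = t := by
  have h : act (1 : Th γ) m = LinearMap.id := by
    ext v
    exact act_tprod 1 v
  rw [h, LinearMap.id_apply]

theorem act_mul (θ θ' : Th γ) (m : ℕ) (t : TT γ m) :
    act (θ * θ') m t = act θ m (act θ' m t) := by
  have h : act (θ * θ') m = act θ m ∘ₗ act θ' m := by
    ext v
    simp only [LinearMap.compMultilinearMap_apply, LinearMap.comp_apply, act_tprod]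
    rfl
  rw [h, LinearMap.comp_apply]

theorem act_bb (θ : Th γ) {m n : ℕ} {Δ : Subgroup Γ} {t : TT γ m} (ht : t ∈ bb γ m Δ n) :
    act θ m t ∈ bb γ m Δ n := by
  have h : bb γ m Δ n ≤ (bb γ m Δ n).comap (act θ m) := by
    refine Submodule.span_le.2 ?_
    rintro _ (⟨s, rfl⟩ | ⟨v, l, δ, hδ, rfl⟩)
    · exact Submodule.subset_span (Or.inl ⟨act θ m s, map_nsmul _ _ _⟩)
    · change act θ m _ ∈ bb γ m Δ n
      rw [act_tprod]
      refine tprod_bb n _ l (Submodule.subset_span ⟨δ, hδ, res θ (v l), ?_⟩)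
      rw [Function.update_self, map_smul]
  exact h ht

theorem bb_mono {m n : ℕ} {Δ Δ' : Subgroup Γ} (h : Δ ≤ Δ') : bb γ m Δ n ≤ bb γ m Δ' n := by
  refine Submodule.span_mono (Set.union_subset_union_right _ ?_)
  rintro _ ⟨v, l, δ, hδ, rfl⟩
  exact ⟨v, l, δ, h hδ, rfl⟩

theorem bb_sub {m : ℕ} (n n' : ℕ) {Δ : Subgroup Γ} {t : TT γ m} (ht : t ∈ bb γ m Δ n) :
    ∃ s, t - n • s ∈ bb γ m Δ n' := by
  induction ht using Submodule.span_induction with
  | mem x hx =>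
    rcases hx with ⟨s, rfl⟩ | hx
    · exact ⟨s, by rw [sub_self]; exact Submodule.zero_mem _⟩
    · exact ⟨0, by rw [nsmul_zero, sub_zero]; exact Submodule.subset_span (Or.inr hx)⟩
  | zero => exact ⟨0, by rw [nsmul_zero, sub_zero]; exact Submodule.zero_mem _⟩
  | add a b _ _ ha hb =>
    obtain ⟨s, hs⟩ := ha
    obtain ⟨s', hs'⟩ := hb
    refine ⟨s + s', ?_⟩
    rw [nsmul_add, add_sub_add_comm]
    exact add_mem hs hs'
  | smul r a _ ha =>
    obtain ⟨s, hs⟩ := ha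
    refine ⟨r • s, ?_⟩
    rw [smul_comm n r s, ← smul_sub]
    exact Submodule.smul_mem _ r hs

theorem haus_fin (hH : SHaus) (hvn : VN Γ) (hγ : Subgroup.closure (Set.range γ) = ⊤) {m : ℕ}
    {J : Type} [Fintype J] (L : Submodule ℤ (J → TT γ m)) (hL : Inv L) (n : ℕ)
    (hn : ∀ t, n • t ∈ L) (D : Submodule ℤ (J → TT γ m))
    (hD : (D.map L.mkQ : Set ((J → TT γ m) ⧸ L)).Finite) :
    ∃ Δ : Subgroup Γ, Δ.Normal ∧ Δ.FiniteIndex ∧
      ∀ t ∈ D, (∀ j, t j ∈ bb γ m Δ n) → t ∈ L := by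
  have h1 : ∀ q : (J → TT γ m) ⧸ L, ∃ Δ : Subgroup Γ, Δ.Normal ∧ Δ.FiniteIndex ∧
      ∀ t, L.mkQ t = q → (∀ j, t j ∈ bb γ m Δ n) → t ∈ L := by
    intro q
    obtain ⟨t0, rfl⟩ := L.mkQ_surjective q
    by_cases h0 : t0 ∈ L
    · refine ⟨⊤, inferInstance, inferInstance, fun t ht _ => ?_⟩
      have h2 := L.add_mem ((Submodule.Quotient.eq L).1 ht) h0
      rwa [sub_add_cancel] at h2
    · obtain ⟨Δ, n', h2, h3, _, h4⟩ := hH Γ I γ hvn hγ m J L hL t0 h0
      refine ⟨Δ, h2, h3, fun t ht ht' => (h4 ?_).elim⟩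
      choose s hs using fun j => bb_sub n n' (ht' j)
      have e : t0 = (n • s - (t - t0)) + (t - n • s) := by abel
      rw [e]
      exact Submodule.add_mem_sup (L.sub_mem (hn s) ((Submodule.Quotient.eq L).1 ht))
        fun j _ => hs j
  choose Δ h2 h3 h4 using h1
  have := hD.to_subtype
  refine ⟨⨅ q : (D.map L.mkQ : Set ((J → TT γ m) ⧸ L)), Δ q.1,
    Subgroup.normal_iInf_normal fun q => h2 q.1, Subgroup.finiteIndex_iInf fun q => h3 q.1,
    fun t ht ht' => h4 _ t rfl fun j => bb_mono ?_ (ht' j)⟩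
  exact iInf_le (fun q : (D.map L.mkQ : Set ((J → TT γ m) ⧸ L)) => Δ q.1)
    ⟨L.mkQ t, Submodule.mem_map_of_mem ht⟩

/-- the parameter group -/
abbrev YY (Γ I W : Type) [Group Γ] [AddCommGroup W] [Module (QQ Γ) W] : Type :=
  (I → QQ Γ) →ₗ[QQ Γ] W

/-- forms -/
abbrev Fm (W A : Type) [AddCommGroup W] [AddCommGroup A] (i : ℕ) : Type :=
  MultilinearMap ℤ (fun _ : Fin i => W) A

variable {W A : Type} [AddCommGroup W] [Module (QQ Γ) W] [AddCommGroup A]
  (π₀ : VV γ →ₗ[QQ Γ] W)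

/-- the perturbed map -/
noncomputable def ph (y : YY Γ I W) : VV γ →ₗ[QQ Γ] W := π₀ + y ∘ₗ (VV γ).subtype

theorem ph_add (y b : YY Γ I W) (v : VV γ) : ph π₀ (y + b) v = ph π₀ y v + b v :=
  (add_assoc _ _ _).symm

/-- the function given by a form and a tensor -/
noncomputable def lam {i : ℕ} (B : Fm W A i) : TT γ i →ₗ[ℤ] (YY Γ I W → A) :=
  PiTensorProduct.lift
    (MultilinearMap.pi fun y => B.compLinearMap fun _ => (ph π₀ y).restrictScalars ℤ)

theorem lam_tprod {i : ℕ} (B : Fm W A i) (v : Fin i → VV γ) :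
    lam π₀ B (tprod ℤ v) = fun y => B fun l => ph π₀ y (v l) := PiTensorProduct.lift.tprod _

/-- the substitution that belongs to an endomorphism -/
noncomputable def tau (θ : Th γ) (y : YY Γ I W) : YY Γ I W :=
  y + ph π₀ y ∘ₗ LinearMap.codRestrict (VV γ) (θ.1 - 1) fun x => by
    change del γ (θ.1 x - x) = 0
    rw [map_sub, θ.2 x, sub_self]

theorem ph_tau (θ : Th γ) (y : YY Γ I W) (v : VV γ) :
    ph π₀ (tau π₀ θ y) v = ph π₀ y (res θ v) := by
  rw [tau, ph_add, LinearMap.comp_apply, ← map_add]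
  congr 1
  exact Subtype.ext (add_sub_cancel _ _)

theorem lam_act {i : ℕ} (B : Fm W A i) (θ : Th γ) (t : TT γ i) :
    lam π₀ B (act θ i t) = lam π₀ B t ∘ tau π₀ θ := by
  have h : lam π₀ B ∘ₗ act θ i = LinearMap.funLeft ℤ A (tau π₀ θ) ∘ₗ lam π₀ B := by
    refine PiTensorProduct.ext (MultilinearMap.ext fun v => ?_)
    simp only [LinearMap.compMultilinearMap_apply, LinearMap.comp_apply, act_tprod, lam_tprod]
    funext y
    simp only [LinearMap.funLeft_apply, ph_tau]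
  exact LinearMap.congr_fun h t

/-- polynomial functions of degree less than `c` with forms in `𝓑` -/
noncomputable def PolB (c : ℕ) (𝓑 : Set (Σ i, Fm W A i)) : Submodule ℤ (YY Γ I W → A) :=
  Submodule.span ℤ {f | ∃ p ∈ 𝓑, p.1 < c ∧ ∃ t, f = lam π₀ p.2 t}

theorem lam_mem {c : ℕ} {𝓑 : Set (Σ i, Fm W A i)} {p : Σ i, Fm W A i} (hp : p ∈ 𝓑)
    (hc : p.1 < c) (t : TT γ p.1) : lam π₀ p.2 t ∈ PolB π₀ c 𝓑 :=
  Submodule.subset_span ⟨p, hp, hc, t, rfl⟩

theorem PolB_mono {c c' : ℕ} {𝓑 𝓑' : Set (Σ i, Fm W A i)} (hc : c ≤ c') (h : 𝓑 ⊆ 𝓑') :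
    PolB π₀ c 𝓑 ≤ PolB π₀ c' 𝓑' := by
  refine Submodule.span_mono ?_
  rintro _ ⟨p, hp, h1, t, rfl⟩
  exact ⟨p, h hp, h1.trans_le hc, t, rfl⟩

theorem PolB_tau {c : ℕ} {𝓑 : Set (Σ i, Fm W A i)} (θ : Th γ) :
    ∀ f ∈ PolB π₀ c 𝓑, f ∘ tau π₀ θ ∈ PolB π₀ c 𝓑 := by
  have h : PolB π₀ c 𝓑 ≤ (PolB π₀ c 𝓑).comap (LinearMap.funLeft ℤ A (tau π₀ θ)) := by
    refine Submodule.span_le.2 ?_
    rintro _ ⟨p, hp, h1, t, rfl⟩
    change lam π₀ p.2 t ∘ tau π₀ θ ∈ PolB π₀ c 𝓑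
    rw [← lam_act]
    exact lam_mem π₀ hp h1 _
  exact fun f hf => h hf

theorem PolB_fin {c : ℕ} {H : Set (YY Γ I W → A)} (h1 : H.Finite)
    (h2 : H ⊆ PolB π₀ c (Set.univ : Set (Σ i, Fm W A i))) :
    ∃ 𝓑 : Set (Σ i, Fm W A i), 𝓑.Finite ∧ H ⊆ PolB π₀ c 𝓑 := by
  have key : ∀ f ∈ PolB π₀ c (Set.univ : Set (Σ i, Fm W A i)),
      ∃ 𝓑 : Set (Σ i, Fm W A i), 𝓑.Finite ∧ f ∈ PolB π₀ c 𝓑 := by
    intro f hf
    induction hf using Submodule.span_induction with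
    | mem x hx =>
      obtain ⟨p, _, h3, t, rfl⟩ := hx
      exact ⟨{p}, Set.finite_singleton p, lam_mem π₀ (Set.mem_singleton p) h3 t⟩
    | zero => exact ⟨∅, Set.finite_empty, Submodule.zero_mem _⟩
    | add a b _ _ ha hb =>
      obtain ⟨𝓑, h3, h4⟩ := ha
      obtain ⟨𝓑', h5, h6⟩ := hb
      exact ⟨𝓑 ∪ 𝓑', h3.union h5, add_mem (PolB_mono π₀ le_rfl Set.subset_union_left h4)
        (PolB_mono π₀ le_rfl Set.subset_union_right h6)⟩
    | smul r a _ ha =>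
      obtain ⟨𝓑, h3, h4⟩ := ha
      exact ⟨𝓑, h3, Submodule.smul_mem _ r h4⟩
  choose! 𝓑 h3 h4 using key
  exact ⟨⋃ f ∈ H, 𝓑 f, h1.biUnion fun f hf => h3 f (h2 hf), fun f hf =>
    PolB_mono π₀ le_rfl (Set.subset_biUnion_of_mem hf) (h4 f (h2 hf))⟩

theorem gen_mem {c : ℕ} {ι : Type} [Fintype ι] (hc : Fintype.card ι < c)
    (B : MultilinearMap ℤ (fun _ : ι => W) A) (v : ι → VV γ) :
    (fun y => B fun l => ph π₀ y (v l)) ∈ PolB π₀ c (Set.univ : Set (Σ i, Fm W A i)) := by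
  have h := lam_mem π₀ (Set.mem_univ ⟨_, B.domDomCongr (Fintype.equivFin ι)⟩) hc
    (tprod ℤ fun l => v ((Fintype.equivFin ι).symm l))
  rw [lam_tprod] at h
  simpa using h

/-- the limit of forms -/
noncomputable def lmM [Finite A] {X ι : Type} (U : Ultrafilter X)
    (B : X → MultilinearMap ℤ (fun _ : ι => W) A) : MultilinearMap ℤ (fun _ : ι => W) A where
  toFun w := lm U fun b => B b w
  map_update_add' w l x z := by
    simp only [MultilinearMap.map_update_add]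
    exact lm_add U _ _
  map_update_smul' w l r x := by
    simp only [MultilinearMap.map_update_smul]
    exact (lmL U).map_smul r _

theorem fil [Finite A] : Fil fun c => PolB π₀ c (Set.univ : Set (Σ i, Fm W A i)) := by
  classical
  refine ⟨?_, fun a b h => PolB_mono π₀ h subset_rfl, fun c f hf U => ?_⟩
  · refine Submodule.span_eq_bot.2 ?_
    rintro _ ⟨p, _, h, _⟩
    exact absurd h (Nat.not_lt_zero _)
  · have h : PolB π₀ (c + 1) (Set.univ : Set (Σ i, Fm W A i)) ≤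
        (PolB π₀ c Set.univ).comap (tr U - 1 : Module.End ℤ (YY Γ I W → A)) := by
      refine Submodule.span_le.2 ?_
      rintro _ ⟨⟨i, B⟩, _, hi, t, rfl⟩
      have h1 : (⊤ : Submodule ℤ (TT γ i)) ≤ (PolB π₀ c Set.univ).comap
          ((tr U - 1 : Module.End ℤ (YY Γ I W → A)) ∘ₗ lam π₀ B) := by
        rw [← PiTensorProduct.span_tprod_eq_top, Submodule.span_le]
        rintro _ ⟨v, rfl⟩
        let g : Finset (Fin i) → YY Γ I W → A := fun S y =>
          lm U fun b => B (S.piecewise (fun l => ph π₀ y (v l)) fun l => b (v l))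
        have e1 : (tr U : Module.End ℤ (YY Γ I W → A)) (lam π₀ B (tprod ℤ v)) = ∑ S, g S := by
          funext y
          rw [tr_apply, lam_tprod, Finset.sum_apply]
          have e0 := map_sum (lmL (A := A) U) (fun (S : Finset (Fin i)) (b : YY Γ I W) =>
            B (S.piecewise (fun l => ph π₀ y (v l)) fun l => b (v l))) Finset.univ
          simp only [lmL_apply] at e0
          simp only [g]
          rw [← e0]
          congr 1
          funext b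
          rw [Finset.sum_apply, ← MultilinearMap.map_add_univ]
          congr 1
          funext l
          exact ph_add π₀ y b (v l)
        have e2 : g Finset.univ = lam π₀ B (tprod ℤ v) := by
          funext y
          rw [lam_tprod]
          simp only [g, Finset.piecewise_univ, lm_const]
        rw [SetLike.mem_coe, Submodule.mem_comap, LinearMap.comp_apply, LinearMap.sub_apply,
          Module.End.one_apply, e1, ← e2, ← Finset.sum_erase_eq_sub (Finset.mem_univ _)]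
        refine Submodule.sum_mem _ fun S hS => ?_
        have h2 : Fintype.card {l // l ∈ S} < c := by
          have h3 := Finset.card_lt_card
            (Finset.ssubset_univ_iff.2 (Finset.ne_of_mem_erase hS))
          rw [Finset.card_univ, Fintype.card_fin] at h3
          rw [Fintype.card_coe]
          exact h3.trans_le (Nat.lt_succ_iff.1 hi)
        have h3 := gen_mem π₀ h2
          (lmM U fun b : YY Γ I W => B.domDomRestrict (· ∈ S) fun l => b (v l.1)) fun l => v l.1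
        refine (congrArg (· ∈ PolB π₀ c Set.univ) ?_).mp h3
        funext y
        change (lm U fun b => B _) = lm U fun b => B _
        congr 1
      exact h1 (Submodule.mem_top (x := t))
    exact h hf

/-- the function given by a family of forms and tensors -/
noncomputable def Lam {c : ℕ} {J : Type} [Fintype J] (β : J → Fm W A c) :
    (J → TT γ c) →ₗ[ℤ] (YY Γ I W → A) := ∑ j, lam π₀ (β j) ∘ₗ LinearMap.proj j

theorem Lam_apply {c : ℕ} {J : Type} [Fintype J] (β : J → Fm W A c) (t : J → TT γ c) :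
    Lam π₀ β t = ∑ j, lam π₀ (β j) (t j) := by
  rw [Lam, LinearMap.sum_apply]
  rfl

theorem Lam_act {c : ℕ} {J : Type} [Fintype J] (β : J → Fm W A c) (θ : Th γ)
    (t : J → TT γ c) : Lam π₀ β (fun j => act θ c (t j)) = Lam π₀ β t ∘ tau π₀ θ := by
  funext y
  simp only [Lam_apply, lam_act, Finset.sum_apply, Function.comp_apply]

theorem Lam_single {c : ℕ} {J : Type} [Fintype J] [DecidableEq J] (β : J → Fm W A c) (j : J)
    (t : TT γ c) : Lam π₀ β (Pi.single j t) = lam π₀ (β j) t := by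
  rw [Lam_apply, Finset.sum_eq_single j]
  · rw [Pi.single_eq_same]
  · intro k _ hk
    rw [Pi.single_eq_of_ne hk, map_zero]
  · exact fun h => (h (Finset.mem_univ j)).elim

theorem Lam_mem {c : ℕ} {J : Type} [Fintype J] (β : J → Fm W A c) (t : J → TT γ c) :
    Lam π₀ β t ∈ PolB π₀ (c + 1) (Set.univ : Set (Σ i, Fm W A i)) := by
  rw [Lam_apply]
  exact Submodule.sum_mem _ fun j _ => lam_mem π₀ (Set.mem_univ ⟨c, β j⟩) (Nat.lt_succ_self c) _

theorem top_part {c : ℕ} {J : Type} [Fintype J] (β : J → Fm W A c) {𝓑 : Set (Σ i, Fm W A i)}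
    (h : ∀ B, ⟨c, B⟩ ∈ 𝓑 → ∃ j, β j = B) {f : YY Γ I W → A} (hf : f ∈ PolB π₀ (c + 1) 𝓑) :
    ∃ e, f - Lam π₀ β e ∈ PolB π₀ c (Set.univ : Set (Σ i, Fm W A i)) := by
  classical
  induction hf using Submodule.span_induction with
  | mem x hx =>
    obtain ⟨⟨i, B⟩, hp, h1, t, rfl⟩ := hx
    rcases Nat.lt_succ_iff_lt_or_eq.1 h1 with h2 | h2
    · refine ⟨0, ?_⟩
      rw [map_zero, sub_zero]
      exact lam_mem π₀ (Set.mem_univ _) h2 t
    · change i = c at h2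
      subst h2
      obtain ⟨j, rfl⟩ := h B hp
      refine ⟨Pi.single j t, ?_⟩
      rw [Lam_single, sub_self]
      exact Submodule.zero_mem _
  | zero => exact ⟨0, by rw [map_zero, sub_zero]; exact Submodule.zero_mem _⟩
  | add a b _ _ ha hb =>
    obtain ⟨s, hs⟩ := ha
    obtain ⟨s', hs'⟩ := hb
    refine ⟨s + s', ?_⟩
    rw [map_add, add_sub_add_comm]
    exact add_mem hs hs'
  | smul r a _ ha =>
    obtain ⟨s, hs⟩ := ha
    refine ⟨r • s, ?_⟩
    rw [map_smul, ← smul_sub]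
    exact Submodule.smul_mem _ r hs

theorem fin_image {α β Z : Type} [Finite Z] [Nonempty α] (f : α → β) (g : α → Z) (D : Set α)
    (h : ∀ x ∈ D, ∀ y ∈ D, g x = g y → f x = f y) : (f '' D).Finite := by
  refine (Set.finite_range fun z => f (Function.invFunOn g D z)).subset ?_
  rintro _ ⟨x, hx, rfl⟩
  exact ⟨g x, h _ (Function.invFunOn_apply_mem hx) _ hx (Function.invFunOn_apply_eq hx)⟩

theorem fin_of_fg {M : Type} [AddCommGroup M] [Module ℤ M] {n : ℕ} (hn : 0 < n)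
    (h : ∀ x : M, n • x = 0) (S : Submodule ℤ M) (hS : S.FG) : (S : Set M).Finite := by
  refine @Module.finite_of_fg_torsion S _ S.module (Module.Finite.iff_fg.2 hS) fun x =>
    ⟨⟨n, mem_nonZeroDivisors_of_ne_zero (by exact_mod_cast hn.ne')⟩, Subtype.ext ?_⟩
  exact (Nat.cast_smul_eq_nsmul ℤ n x.1).trans (h x.1)

/-- finitely many functionals -/
theorem fin_fun [Finite A] (hR : IsNoetherianRing (QQ Γ)) {c n : ℕ} {Δ : Subgroup Γ}
    (hΔ : Δ.FiniteIndex) {𝓒 : Set (Σ i, Fm W A i)} (h : 𝓒.Finite) (U : Ultrafilter (YY Γ I W))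
    (hU : ∀ p ∈ 𝓒, p.1 < c → ∀ t ∈ bb γ p.1 Δ n, lm U (lam π₀ p.2 t) = 0) :
    ∃ (Z : Type) (_ : Finite Z) (ρ : Z → Th γ), ∀ θ, ∃ z, ∀ f ∈ Red (PolB π₀ c 𝓒),
      lm U (f ∘ tau π₀ θ) = lm U (f ∘ tau π₀ (ρ z)) := by
  obtain ⟨X, hX, hX'⟩ := fin_gen hR γ Δ hΔ
  have := hX.to_subtype
  have := h.to_subtype
  have : Nonempty (Th γ) := ⟨1⟩
  let ev : Th γ → ∀ p : 𝓒, (Fin p.1.1 → X) → A := fun θ p x =>
    lm U (lam π₀ p.1.2 (act θ _ (tprod ℤ fun l => (x l).1)))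
  refine ⟨_, inferInstance, Function.invFun ev, fun θ => ⟨ev θ, fun f hf => ?_⟩⟩
  have h1 : ev (Function.invFun ev (ev θ)) = ev θ := Function.invFun_eq ⟨θ, rfl⟩
  generalize Function.invFun ev (ev θ) = θ' at h1
  refine Red_lm U _ _ (fun k hk => ?_) hf
  refine LinearMap.eqOn_span' (f := lmL U ∘ₗ LinearMap.funLeft ℤ A (tau π₀ θ))
    (g := lmL U ∘ₗ LinearMap.funLeft ℤ A (tau π₀ θ')) ?_ hk
  rintro _ ⟨p, hp, h2, t, rfl⟩
  change lm U (lam π₀ p.2 t ∘ tau π₀ θ) = lm U (lam π₀ p.2 t ∘ tau π₀ θ')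
  rw [← lam_act, ← lam_act]
  exact LinearMap.congr_fun (bb_ext (n := n) hX' (σ := lmL U ∘ₗ lam π₀ p.2 ∘ₗ act θ p.1)
    (σ' := lmL U ∘ₗ lam π₀ p.2 ∘ₗ act θ' p.1) (fun t ht => hU p hp h2 _ (act_bb θ ht))
    (fun t ht => hU p hp h2 _ (act_bb θ' ht))
    fun x => (congrFun (congrFun h1 ⟨p, hp⟩) x).symm) t

theorem inv_red {c : ℕ} {J : Type} [Fintype J] (β : J → Fm W A c) (𝓒 : Set (Σ i, Fm W A i)) :
    Inv ((Red (PolB π₀ c 𝓒)).comap (Lam π₀ β)) := fun θ t ht => by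
  rw [Submodule.mem_comap, Lam_act]
  exact Red_comp _ (PolB_tau π₀ θ) ht

/-- finitely many forms are enough -/
theorem fin_red (hN : SN) (hvn : VN Γ) (hγ : Subgroup.closure (Set.range γ) = ⊤) {c : ℕ}
    {J : Type} [Fintype J] (β : J → Fm W A c) : ∃ 𝓒 : Set (Σ i, Fm W A i), 𝓒.Finite ∧
      ∀ t, Lam π₀ β t ∈ Red (PolB π₀ c (Set.univ : Set (Σ i, Fm W A i))) →
        Lam π₀ β t ∈ Red (PolB π₀ c 𝓒) := by
  have wf : WellFoundedGT {L : Submodule ℤ (J → TT γ c) // Inv L} :=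
    wellFoundedGT_iff_monotone_chain_condition.2 fun a => by
      obtain ⟨k, hk⟩ := hN Γ I γ hvn hγ c J (fun k => (a k).1) (fun _ _ h => a.mono h)
        fun k => (a k).2
      exact ⟨k, fun l hl => Subtype.ext (hk l hl).symm⟩
  obtain ⟨_, ⟨𝓒, h1, rfl⟩, hmax⟩ := wf.wf.has_min
    ((fun 𝓒 => ⟨_, inv_red π₀ β 𝓒⟩) '' {𝓒 | 𝓒.Finite}) ⟨_, ∅, Set.finite_empty, rfl⟩
  refine ⟨𝓒, h1, ?_⟩
  rintro t ⟨K, k1, k2, k3⟩
  obtain ⟨𝓒', k4, k5⟩ := PolB_fin π₀ k1 k2
  have e : (Red (PolB π₀ c 𝓒)).comap (Lam π₀ β) = (Red (PolB π₀ c (𝓒 ∪ 𝓒'))).comap (Lam π₀ β) :=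
    eq_of_le_of_not_lt
      (Submodule.comap_mono (Red_mono (PolB_mono π₀ le_rfl Set.subset_union_left)))
      (hmax _ ⟨𝓒 ∪ 𝓒', h1.union k4, rfl⟩)
  rw [← Submodule.mem_comap, e]
  exact ⟨K, k1, fun k hk => PolB_mono π₀ le_rfl Set.subset_union_right (k5 hk), k3⟩

/-- the limit vanishes on a small congruence part -/
theorem small [Finite A] (hH : SHaus) (hR : IsNoetherianRing (QQ Γ)) (hvn : VN Γ)
    (hγ : Subgroup.closure (Set.range γ) = ⊤) {c n : ℕ} (hn : 0 < n) (hA : ∀ a : A, n • a = 0)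
    {J : Type} [Fintype J] (β : J → Fm W A c) {Δ : Subgroup Γ} (hΔ : Δ.FiniteIndex)
    {𝓒 : Set (Σ i, Fm W A i)} (h : 𝓒.Finite) (U : Ultrafilter (YY Γ I W))
    (hU : ∀ p ∈ 𝓒, p.1 < c → ∀ t ∈ bb γ p.1 Δ n, lm U (lam π₀ p.2 t) = 0)
    (E : Submodule ℤ (J → TT γ c)) (hE : E.FG) :
    ∃ Δ' : Subgroup Γ, Δ'.Normal ∧ Δ'.FiniteIndex ∧
      ∀ t ∈ (Red (PolB π₀ c 𝓒)).comap (Lam π₀ β) ⊔ E, (∀ j, t j ∈ bb γ c Δ' n) →
        lm U (Lam π₀ β t) = 0 := by
  obtain ⟨Z, _, ρ, hρ⟩ := fin_fun π₀ hR hΔ h U hU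
  let s : Th γ → (J → TT γ c) →ₗ[ℤ] A := fun θ =>
    lmL U ∘ₗ LinearMap.funLeft ℤ A (tau π₀ θ) ∘ₗ Lam π₀ β
  have hs : ∀ θ t, s θ t = lm U (Lam π₀ β t ∘ tau π₀ θ) := fun _ _ => rfl
  let L : Submodule ℤ (J → TT γ c) :=
    (Red (PolB π₀ c 𝓒)).comap (Lam π₀ β) ⊓ ⨅ θ, LinearMap.ker (s θ)
  have hL : ∀ t, t ∈ L ↔ Lam π₀ β t ∈ Red (PolB π₀ c 𝓒) ∧ ∀ θ, s θ t = 0 := fun t => by
    simp only [L, Submodule.mem_inf, Submodule.mem_iInf, LinearMap.mem_ker, Submodule.mem_comap]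
  have h1 : Inv L := fun θ t ht => (hL _).2 ⟨inv_red π₀ β 𝓒 θ t ((hL t).1 ht).1, fun θ' => by
    rw [← ((hL t).1 ht).2 (θ' * θ), hs, hs, ← Lam_act, ← Lam_act]
    simp only [act_mul]⟩
  have h2 : ∀ t, n • t ∈ L := fun t => (hL _).2 ⟨by
    have e : n • Lam π₀ β t = 0 := funext fun y => hA _
    rw [map_nsmul, e]
    exact Submodule.zero_mem _, fun θ => by rw [map_nsmul, hA]⟩
  have h3 := fin_image L.mkQ (fun t z => s (ρ z) t) ((Red (PolB π₀ c 𝓒)).comap (Lam π₀ β))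
    fun t ht t' ht' e => (Submodule.Quotient.eq L).2 ((hL _).2 ⟨by
      rw [map_sub]
      exact sub_mem ht ht', fun θ => by
      obtain ⟨z, hz⟩ := hρ θ
      rw [map_sub, hs, hs, hz _ ht, hz _ ht', sub_eq_zero]
      exact congrFun e z⟩)
  obtain ⟨Δ', h4, h5, h6⟩ := haus_fin hH hvn hγ L h1 n h2
    ((Red (PolB π₀ c 𝓒)).comap (Lam π₀ β) ⊔ E) (fin_of_fg hn (fun x => by
      obtain ⟨t, rfl⟩ := L.mkQ_surjective x
      rw [← map_nsmul]
      exact (Submodule.Quotient.mk_eq_zero L).2 (h2 t)) _ (by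
      rw [Submodule.map_sup]
      rw [← Submodule.map_coe] at h3
      exact Submodule.FG.sup (Submodule.fg_def.2 ⟨_, h3, Submodule.span_eq _⟩) (hE.map _)))
  refine ⟨Δ', h4, h5, fun t ht ht' => ?_⟩
  have h7 := ((hL t).1 (h6 t ht ht')).2 1
  rw [hs, ← Lam_act] at h7
  simpa only [act_one] using h7

theorem rlc {n : ℕ} [NeZero n] (hN : SN) (hH : SHaus) (hR : IsNoetherianRing (QQ Γ)) (hvn : VN Γ)
    (hγ : Subgroup.closure (Set.range γ) = ⊤) (c : ℕ) : ∀ G : Set (YY Γ I W), Syn G →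
    ∀ 𝓑 : Set (Σ i, Fm W (ZMod n) i), 𝓑.Finite → ∃ Δ : Subgroup Γ, Δ.Normal ∧ Δ.FiniteIndex ∧
      ∃ U : Ultrafilter (YY Γ I W), G ∈ U ∧ ∀ p ∈ 𝓑, p.1 < c → ∀ t ∈ bb γ p.1 Δ n,
        lm U (lam π₀ p.2 t) = 0 := by
  classical
  have hn : 0 < n := Nat.pos_of_ne_zero (NeZero.ne n)
  have hA : ∀ a : ZMod n, n • a = 0 := fun a => by simp
  have hP := fil (A := ZMod n) π₀
  induction c with
  | zero =>
    rintro G ⟨T, hT⟩ 𝓑 _
    obtain ⟨t, _, ht⟩ := hT 0
    exact ⟨⊤, inferInstance, inferInstance, pure (0 + t), Ultrafilter.mem_pure.2 ht,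
      fun p _ h => absurd h (Nat.not_lt_zero _)⟩
  | succ c ih =>
    intro G hG 𝓑 h𝓑
    obtain ⟨H, y0, a1, a2, a3⟩ := hP.sd1 (c + 1) hG
    obtain ⟨𝓑₁, b1, b2⟩ := PolB_fin π₀ a1 a2
    have : Finite {B : Fm W (ZMod n) c // (⟨c, B⟩ : Σ i, Fm W (ZMod n) i) ∈ 𝓑 ∪ 𝓑₁} :=
      ((h𝓑.union b1).preimage sigma_mk_injective.injOn).to_subtype
    obtain ⟨J, _, β, hβ⟩ : ∃ (J : Type) (_ : Fintype J) (β : J → Fm W (ZMod n) c),
        ∀ B, (⟨c, B⟩ : Σ i, Fm W (ZMod n) i) ∈ 𝓑 ∪ 𝓑₁ → ∃ j, β j = B :=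
      ⟨_, Fintype.ofFinite _, Subtype.val, fun B hB => ⟨⟨B, hB⟩, rfl⟩⟩
    obtain ⟨𝓒, c1, c2⟩ := fin_red π₀ hN hvn hγ β
    obtain ⟨Δ₁, d1, d2, U, d3, d4⟩ := ih (At H y0) (hP.sd2 hn hA (c + 1) a1 a2 y0) (𝓑 ∪ 𝓒)
      (h𝓑.union c1)
    choose! e he using fun h (hh : h ∈ H) =>
      top_part π₀ β (fun B hB => hβ B (Or.inr hB)) (b2 hh)
    obtain ⟨Δ₂, e1, e2, e3⟩ := small π₀ hH hR hvn hγ hn hA β d2 c1 U
      (fun p hp => d4 p (Or.inr hp)) (Submodule.span ℤ (e '' H)) (Submodule.fg_span (a1.image e))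
    obtain ⟨U', f1, f2⟩ := hP.u1 (c := c)
      (D1 := (Red (PolB π₀ c Set.univ) ⊓ PolB π₀ (c + 1) Set.univ) ⊔ Submodule.span ℤ H)
      (D2 := (Submodule.pi Set.univ fun _ : J => bb γ c Δ₂ n).map (Lam π₀ β))
      (sup_le inf_le_right (Submodule.span_le.2 a2))
      (by
        rintro _ ⟨t, _, rfl⟩
        exact Lam_mem π₀ β t) le_sup_left U (by
        rintro _ hf ⟨t, ht, rfl⟩
        have h1 : (Red (PolB π₀ c Set.univ) ⊓ PolB π₀ (c + 1) Set.univ) ⊔ Submodule.span ℤ H ≤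
            Red (PolB π₀ c Set.univ) ⊔ (Submodule.span ℤ (e '' H)).map (Lam π₀ β) := by
          refine sup_le (inf_le_left.trans le_sup_left) (Submodule.span_le.2 fun h hh => ?_)
          have h2 := Submodule.add_mem_sup (le_Red _ (he h hh))
            (Submodule.mem_map_of_mem (f := Lam π₀ β)
              (Submodule.subset_span (R := ℤ) (Set.mem_image_of_mem e hh)))
          rwa [sub_add_cancel] at h2
        obtain ⟨r, hr, _, ⟨u, hu, rfl⟩, h2⟩ := Submodule.mem_sup.1 (h1 hf)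
        refine e3 t ?_ fun j => ht j trivial
        have h3 : Lam π₀ β (t - u) = r := by rw [map_sub, ← h2, add_sub_cancel_right]
        have h4 := Submodule.add_mem_sup
          (Submodule.mem_comap.2 (c2 (t - u) (by rw [h3]; exact hr))) hu
        rwa [sub_add_cancel] at h4)
    obtain ⟨U'', g1, g2⟩ := a3 U' fun h hh => by
      rw [f1 h (Submodule.mem_sup_right (Submodule.subset_span hh))]
      exact lm_eq (mem_of_superset d3 fun y hy => hy h hh)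
    refine ⟨Δ₁ ⊓ Δ₂, Subgroup.normal_inf_normal _ _, inferInstance, U'', g1, ?_⟩
    rintro ⟨i, B⟩ hp hi t ht
    rw [g2 _ (lam_mem π₀ (Set.mem_univ _) hi t)]
    rcases Nat.lt_succ_iff_lt_or_eq.1 hi with h | h
    · rw [f1 _ (Submodule.mem_sup_left ⟨le_Red _ (lam_mem π₀ (Set.mem_univ _) h t),
        lam_mem π₀ (Set.mem_univ _) hi t⟩)]
      exact d4 _ (Or.inl hp) h t (bb_mono inf_le_left ht)
    · change i = c at h
      subst h
      obtain ⟨j, rfl⟩ := hβ B (Or.inl hp)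
      refine f2 _ ⟨Pi.single j t, fun k _ => ?_, Lam_single π₀ β j t⟩
      by_cases hk : k = j
      · rw [hk, Pi.single_eq_same]
        exact bb_mono inf_le_right ht
      · rw [Pi.single_eq_of_ne hk]
        exact Submodule.zero_mem _

end RlA

open RlA in
theorem rl (hNI : SNI) (hN : SN) (hH : SHaus) : SRL := by
  intro Γ I _ _ γ hvn hγ W _ _ n hn _ π₀ m J _ B G T hT
  have : NeZero n := ⟨hn.ne'⟩
  obtain ⟨Δ, h1, h2, U, h3, h4⟩ := rlc π₀ hN hH
    (noeth hNI (Group.fg_iff.2 ⟨_, hγ, Set.finite_range γ⟩) hvn) hvn hγ (m + 1) G ⟨T, hT⟩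
    (Set.range fun j => ⟨m, B j⟩) (Set.finite_range _)
  refine ⟨Δ, h1, h2, fun E hE => ?_⟩
  obtain ⟨y, hy, hy'⟩ := ((Filter.eventually_all.2 fun j => (Filter.eventually_all_finset E).2
    fun v _ => lm_spec U (lam π₀ (B j) (PiTensorProduct.tprod ℤ v))).and h3).exists
  refine ⟨y, hy', fun j v hv => ?_⟩
  obtain ⟨l, hl⟩ := hE v hv
  have h5 := (hy j v hv).trans (h4 _ ⟨j, rfl⟩ (Nat.lt_succ_self m) _ (tprod_bb n v l hl))
  rw [lam_tprod] at h5
  exact h5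

end Pool.Agent.MP_5c28a4_al.H89S
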