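import Pool.Agent.MP_5c28a4_al.H89S.Spec

/-!
Limits along ultrafilters for a filtered group of polynomial functions on an abelian group.
-/

set_option autoImplicit false

namespace Pool.Agent.MP_5c28a4_al.H89S.RlA

open Filter

section Lm

variable {X X' A : Type} [Finite A]

theorem ex_lm (U : Ultrafilter X) (f : X → A) : ∃ a, ∀ᶠ x in (U : Filter X), f x = a := by
  obtain ⟨a, ha⟩ := Ultrafilter.eq_pure_of_finite (U.map f)
  refine ⟨a, ?_⟩
  have h : ({a} : Set A) ∈ U.map f := by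
    rw [ha]
    exact Ultrafilter.mem_pure.2 rfl
  exact h

/-- the limit of a function with finitely many values -/
noncomputable def lm (U : Ultrafilter X) (f : X → A) : A := (ex_lm U f).choose

theorem lm_spec (U : Ultrafilter X) (f : X → A) : ∀ᶠ x in (U : Filter X), f x = lm U f :=
  (ex_lm U f).choose_spec

theorem lm_eq {U : Ultrafilter X} {f : X → A} {a : A} (h : ∀ᶠ x in (U : Filter X), f x = a) :
    lm U f = a := by
  obtain ⟨x, h1, h2⟩ := ((lm_spec U f).and h).exists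
  exact h1.symm.trans h2

theorem lm_congr {U : Ultrafilter X} {f g : X → A} (h : ∀ᶠ x in (U : Filter X), f x = g x) :
    lm U f = lm U g :=
  lm_eq ((h.and (lm_spec U g)).mono fun _ hx => hx.1.trans hx.2)

theorem lm_const (U : Ultrafilter X) (a : A) : lm U (fun _ => a) = a :=
  lm_eq (Eventually.of_forall fun _ => rfl)

theorem lm_map (U : Ultrafilter X) (m : X → X') (f : X' → A) :
    lm (U.map m) f = lm U fun x => f (m x) :=
  lm_eq (lm_spec U fun x => f (m x))

theorem lm_pure (x : X) (f : X → A) : lm (pure x : Ultrafilter X) f = f x :=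
  lm_eq (by
    rw [Ultrafilter.coe_pure]
    exact eventually_pure.2 rfl)

theorem lm_bind (U : Ultrafilter X) (V : X → Ultrafilter X') (f : X' → A) :
    lm (U.bind V) f = lm U fun x => lm (V x) f := by
  refine lm_eq ?_
  change ∀ᶠ y in Filter.bind (U : Filter X) (fun x => (V x : Filter X')), _
  rw [eventually_bind]
  exact (lm_spec U fun x => lm (V x) f).mono fun x hx =>
    (lm_spec (V x) f).mono fun y hy => hy.trans hx

variable [AddCommGroup A]

/-- the limit as a linear map -/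
noncomputable def lmL (U : Ultrafilter X) : (X → A) →ₗ[ℤ] A where
  toFun := lm U
  map_add' f g := lm_eq (((lm_spec U f).and (lm_spec U g)).mono fun x hx => by
    rw [Pi.add_apply, hx.1, hx.2])
  map_smul' c f := lm_eq ((lm_spec U f).mono fun x hx => by
    rw [Pi.smul_apply, hx]
    rfl)

theorem lmL_apply (U : Ultrafilter X) (f : X → A) : (lmL U : (X → A) →ₗ[ℤ] A) f = lm U f := rfl

theorem lm_add (U : Ultrafilter X) (f g : X → A) : lm U (f + g) = lm U f + lm U g :=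
  (lmL U).map_add f g

theorem lm_sub (U : Ultrafilter X) (f g : X → A) : lm U (f - g) = lm U f - lm U g :=
  (lmL U).map_sub f g

theorem lm_zero (U : Ultrafilter X) : lm U (0 : X → A) = 0 := (lmL U).map_zero

end Lm

theorem ex_ultra {X α : Type} (S : α → Set X) (h : ∀ F : Finset α, ∃ x, ∀ i ∈ F, x ∈ S i) :
    ∃ U : Ultrafilter X, ∀ i, S i ∈ U := by
  classical
  choose x hx using h
  refine ⟨(Ultrafilter.of (atTop : Filter (Finset α))).map x, fun i => ?_⟩
  rw [Ultrafilter.mem_map]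
  refine Ultrafilter.of_le (atTop : Filter (Finset α)) ?_
  filter_upwards [mem_atTop ({i} : Finset α)] with F hF
  exact hx F i (hF (Finset.mem_singleton_self i))

/-- a subgroup of a power of `ℤ / n` is its double annihilator -/
theorem dual {n : ℕ} [NeZero n] {F : Type} [Fintype F] (H : AddSubgroup (F → ZMod n))
    (x : F → ZMod n) (hx : x ∉ H) :
    ∃ c : F → ℤ, (∀ h ∈ H, ∑ i, c i • h i = 0) ∧ ∑ i, c i • x i ≠ 0 := by
  classical
  have hc : IsCyclic (Multiplicative (ZMod n))ˣ :=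
    isCyclic_of_surjective toUnits toUnits.surjective
  have h1 : HasEnoughRootsOfUnity (Multiplicative (ZMod n)) n :=
    ⟨⟨Multiplicative.ofAdd 1, by
      have h := IsPrimitiveRoot.orderOf (Multiplicative.ofAdd (1 : ZMod n))
      rwa [orderOf_ofAdd_eq_addOrderOf, ZMod.addOrderOf_one] at h⟩, inferInstance⟩
  have hd : Monoid.exponent (Multiplicative ((F → ZMod n) ⧸ H)) ∣ n := by
    refine Monoid.exponent_dvd_of_forall_pow_eq_one fun g => ?_
    obtain ⟨y, hy⟩ := QuotientAddGroup.mk'_surjective H g.toAdd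
    have hn : n • y = 0 := by
      funext i
      simp
    have h2 : n • g.toAdd = 0 := by rw [← hy, ← map_nsmul, hn, map_zero]
    exact h2
  have h2 := HasEnoughRootsOfUnity.of_dvd (Multiplicative (ZMod n)) hd
  have hx' : Multiplicative.ofAdd (QuotientAddGroup.mk' H x) ≠ 1 := fun h =>
    hx ((QuotientAddGroup.eq_zero_iff x).1 h)
  obtain ⟨φ, hφ⟩ := CommGroup.exists_apply_ne_one_of_hasEnoughRootsOfUnity _
    (Multiplicative (ZMod n)) hx'
  let ψ0 : ((F → ZMod n) ⧸ H) →+ ZMod n :=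
    AddMonoidHom.toMultiplicative.symm ((Units.coeHom _).comp φ)
  let ψ : (F → ZMod n) →+ ZMod n := ψ0.comp (QuotientAddGroup.mk' H)
  have hψ : ∀ y, ψ y = ∑ i, ((ψ (Pi.single i 1)).val : ℤ) • y i := by
    intro y
    have e1 : y = ∑ i, (y i).val • (Pi.single i 1 : F → ZMod n) := by
      funext j
      rw [Finset.sum_apply, Finset.sum_eq_single j]
      · simp
      · intro i _ hi
        simp [hi.symm]
      · simp
    conv_lhs => rw [e1, map_sum]
    refine Finset.sum_congr rfl fun i _ => ?_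
    rw [map_nsmul]
    simp [mul_comm]
  refine ⟨fun i => ((ψ (Pi.single i 1)).val : ℤ), fun h hh => ?_, ?_⟩
  · rw [← hψ]
    have e : QuotientAddGroup.mk' H h = 0 := (QuotientAddGroup.eq_zero_iff h).2 hh
    change ψ0 (QuotientAddGroup.mk' H h) = 0
    rw [e, map_zero]
  · rw [← hψ]
    intro h
    exact hφ (Units.ext h)

section Fil

variable {Y A : Type} [AddCommGroup A]

/-- the functions that depend on finitely many elements of `P` -/
def Red (P : Submodule ℤ (Y → A)) : Submodule ℤ (Y → A) where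
  carrier := {f | ∃ K : Set (Y → A), K.Finite ∧ K ⊆ P ∧
    ∀ y y', (∀ k ∈ K, k y = k y') → f y = f y'}
  zero_mem' := ⟨∅, Set.finite_empty, Set.empty_subset _, fun _ _ _ => rfl⟩
  add_mem' := by
    rintro f g ⟨K, h1, h2, h3⟩ ⟨K', h4, h5, h6⟩
    refine ⟨K ∪ K', h1.union h4, Set.union_subset h2 h5, fun y y' h => ?_⟩
    rw [Pi.add_apply, Pi.add_apply, h3 y y' fun k hk => h k (Or.inl hk),
      h6 y y' fun k hk => h k (Or.inr hk)]
  smul_mem' := by
    rintro c f ⟨K, h1, h2, h3⟩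
    refine ⟨K, h1, h2, fun y y' h => ?_⟩
    rw [Pi.smul_apply, Pi.smul_apply, h3 y y' h]

theorem le_Red (P : Submodule ℤ (Y → A)) : P ≤ Red P := fun f hf =>
  ⟨{f}, Set.finite_singleton f, Set.singleton_subset_iff.2 hf, fun _ _ h => h f rfl⟩

theorem Red_mono {P Q : Submodule ℤ (Y → A)} (h : P ≤ Q) : Red P ≤ Red Q :=
  fun _ ⟨K, h1, h2, h3⟩ => ⟨K, h1, fun _ hk => h (h2 hk), h3⟩

theorem Red_comp {P : Submodule ℤ (Y → A)} (τ : Y → Y) (h : ∀ f ∈ P, f ∘ τ ∈ P) {f : Y → A}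
    (hf : f ∈ Red P) : f ∘ τ ∈ Red P := by
  obtain ⟨K, h1, h2, h3⟩ := hf
  refine ⟨(fun k => k ∘ τ) '' K, h1.image _, ?_, fun y y' hy => h3 _ _ fun k hk => ?_⟩
  · rintro _ ⟨k, hk, rfl⟩
    exact h k (h2 hk)
  · exact hy _ ⟨k, hk, rfl⟩

/-- an atom -/
def At (H : Set (Y → A)) (y0 : Y) : Set Y := {y | ∀ h ∈ H, h y = h y0}

variable [Finite A]

theorem Red_lm {P : Submodule ℤ (Y → A)} (U : Ultrafilter Y) (τ τ' : Y → Y)
    (h : ∀ k ∈ P, lm U (k ∘ τ) = lm U (k ∘ τ')) {f : Y → A} (hf : f ∈ Red P) :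
    lm U (f ∘ τ) = lm U (f ∘ τ') := by
  obtain ⟨K, h1, h2, h3⟩ := hf
  refine lm_congr (((eventually_all_finite h1).2 fun k hk =>
    (lm_spec U (k ∘ τ)).and (lm_spec U (k ∘ τ'))).mono fun y hy => h3 _ _ fun k hk => ?_)
  exact (hy k hk).1.trans ((h k (h2 hk)).trans (hy k hk).2.symm)

variable [AddCommGroup Y]

/-- syndetic -/
def Syn (G : Set Y) : Prop := ∃ T : Finset Y, ∀ y, ∃ t ∈ T, y + t ∈ G

/-- the translation by an ultrafilter -/
noncomputable def tr (U : Ultrafilter Y) : Module.End ℤ (Y → A) where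
  toFun f y := lm U fun b => f (y + b)
  map_add' f g := funext fun y => lm_add U (fun b => f (y + b)) fun b => g (y + b)
  map_smul' c f := funext fun y => (lmL U).map_smul c fun b => f (y + b)

theorem tr_apply (U : Ultrafilter Y) (f : Y → A) (y : Y) :
    (tr U : Module.End ℤ (Y → A)) f y = lm U fun b => f (y + b) := rfl

theorem tr_zero (U : Ultrafilter Y) (f : Y → A) :
    (tr U : Module.End ℤ (Y → A)) f 0 = lm U f := by
  rw [tr_apply]
  simp only [zero_add]

/-- the sum of two ultrafilters -/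
def pl (U V : Ultrafilter Y) : Ultrafilter Y := U.bind fun b => V.map fun c => b + c

theorem lm_pl (U V : Ultrafilter Y) (f : Y → A) :
    lm (pl U V) f = lm U ((tr V : Module.End ℤ (Y → A)) f) := by
  rw [pl, lm_bind]
  simp only [lm_map]
  rfl

theorem tr_pl (U V : Ultrafilter Y) : (tr (pl U V) : Module.End ℤ (Y → A)) = tr U * tr V := by
  refine LinearMap.ext fun f => funext fun y => ?_
  rw [tr_apply, lm_pl, Module.End.mul_apply, tr_apply]
  congr 1
  funext b
  rw [tr_apply, tr_apply]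
  simp only [add_assoc]

theorem tr_pure (b : Y) (f : Y → A) :
    (tr (pure b) : Module.End ℤ (Y → A)) f = fun y => f (b + y) := by
  funext y
  rw [tr_apply, lm_pure, add_comm]

theorem tr_pow (U : Ultrafilter Y) (k : ℕ) :
    ∃ V : Ultrafilter Y, (tr V : Module.End ℤ (Y → A)) = tr U ^ k := by
  induction k with
  | zero =>
    refine ⟨pure 0, LinearMap.ext fun f => ?_⟩
    rw [tr_pure]
    simp
  | succ k ih =>
    obtain ⟨V, hV⟩ := ih
    exact ⟨pl V U, by rw [tr_pl, hV, pow_succ]⟩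

/-- a filtration by degrees -/
structure Fil (Pol : ℕ → Submodule ℤ (Y → A)) : Prop where
  zero : Pol 0 = ⊥
  mono : Monotone Pol
  step : ∀ c, ∀ f ∈ Pol (c + 1), ∀ U : Ultrafilter Y,
    (tr U : Module.End ℤ (Y → A)) f - f ∈ Pol c

variable {Pol : ℕ → Submodule ℤ (Y → A)}

theorem Fil.tr_mem (hP : Fil Pol) {c : ℕ} {f : Y → A} (hf : f ∈ Pol c) (U : Ultrafilter Y) :
    (tr U : Module.End ℤ (Y → A)) f ∈ Pol c := by
  have h := (Pol c).add_mem (hP.step c f (hP.mono (Nat.le_succ c) hf) U) hf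
  rwa [sub_add_cancel] at h

theorem Fil.sh_mem (hP : Fil Pol) {c : ℕ} {f : Y → A} (hf : f ∈ Pol c) (b : Y) :
    (fun y => f (b + y)) ∈ Pol c := by
  rw [← tr_pure]
  exact hP.tr_mem hf _

theorem Fil.sh_sub (hP : Fil Pol) {c : ℕ} {f : Y → A} (hf : f ∈ Pol (c + 1)) (b : Y) :
    (fun y => f (b + y)) - f ∈ Pol c := by
  rw [← tr_pure]
  exact hP.step c f hf _

theorem Fil.inv (hP : Fil Pol) {n : ℕ} (hn : 0 < n) (hA : ∀ a : A, n • a = 0) (c : ℕ)
    (U : Ultrafilter Y) : ∃ V : Ultrafilter Y, ∀ f ∈ Pol c,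
      (tr V : Module.End ℤ (Y → A)) ((tr U : Module.End ℤ (Y → A)) f) = f := by
  have key : ∀ c, ∀ f ∈ Pol c, ((tr U : Module.End ℤ (Y → A)) ^ n ^ c) f = f := by
    intro c
    induction c with
    | zero =>
      intro f hf
      rw [hP.zero, Submodule.mem_bot] at hf
      rw [hf, map_zero]
    | succ c ih =>
      intro f hf
      obtain ⟨V, hV⟩ := tr_pow (A := A) U (n ^ c)
      have hg := hP.step c f hf V
      have h1 : ∀ k : ℕ, ((tr V : Module.End ℤ (Y → A)) ^ k) f =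
          f + k • ((tr V : Module.End ℤ (Y → A)) f - f) := by
        intro k
        induction k with
        | zero => simp
        | succ k ihk =>
          have h2 := ih _ hg
          rw [← hV] at h2
          rw [pow_succ', Module.End.mul_apply, ihk, map_add, map_nsmul, h2, succ_nsmul]
          abel
      have h3 : n • ((tr V : Module.End ℤ (Y → A)) f - f) = 0 := funext fun y => hA _
      rw [pow_succ, pow_mul, ← hV, h1, h3, add_zero]
  obtain ⟨V, hV⟩ := tr_pow (A := A) U (n ^ c - 1)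
  refine ⟨V, fun f hf => ?_⟩
  have h := key c f hf
  rwa [← Nat.sub_add_cancel (Nat.one_le_pow c n hn), pow_succ, ← hV] at h

/-- atoms are syndetic -/
theorem Fil.sd2 (hP : Fil Pol) {n : ℕ} (hn : 0 < n) (hA : ∀ a : A, n • a = 0) (c : ℕ)
    {H : Set (Y → A)} (h1 : H.Finite) (h2 : H ⊆ Pol c) (y0 : Y) : Syn (At H y0) := by
  by_contra hc
  unfold Syn at hc
  push Not at hc
  obtain ⟨U, hU⟩ := ex_ultra (fun t => {y | y + t ∉ At H y0}) hc
  obtain ⟨V, hV⟩ := hP.inv hn hA c U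
  obtain ⟨b, hb⟩ := ((eventually_all_finite h1).2 fun h _ =>
    lm_spec V fun b => (tr U : Module.End ℤ (Y → A)) h (y0 + b)).exists
  obtain ⟨y, hy, hy'⟩ := (((eventually_all_finite h1).2 fun h _ =>
    lm_spec U fun y => h (y0 + b + y)).and (hU (y0 + b))).exists
  refine hy' fun h hh => ?_
  rw [add_comm, hy h hh]
  exact (hb h hh).trans (congrFun (hV h (h2 hh)) y0)

/-- the closure of a syndetic set contains an atom -/
theorem Fil.sd1 (hP : Fil Pol) (c : ℕ) {G : Set Y} (hG : Syn G) :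
    ∃ (H : Set (Y → A)) (y0 : Y), H.Finite ∧ H ⊆ Pol c ∧ ∀ U : Ultrafilter Y,
      (∀ h ∈ H, lm U h = h y0) → ∃ U' : Ultrafilter Y, G ∈ U' ∧ ∀ f ∈ Pol c, lm U' f = lm U f := by
  classical
  by_contra hc
  push Not at hc
  have step : ∀ (t : Y) (H : Set (Y → A)) (y0 : Y), H.Finite → H ⊆ Pol c →
      ∃ (H' : Set (Y → A)) (y1 : Y), H'.Finite ∧ H' ⊆ Pol c ∧ At H' y1 ⊆ At H y0 ∧
        ∀ y ∈ At H' y1, y + t ∉ G := by
    intro t H y0 h1 h2
    obtain ⟨U, hU, hU'⟩ := hc ((fun h y => h (-t + y)) '' H) (t + y0) (h1.image _) (by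
      rintro _ ⟨h, hh, rfl⟩
      exact hP.sh_mem (h2 hh) _)
    have h3 : ¬ ∀ F : Finset (Pol c), ∃ y, ∀ f ∈ F, y ∈ {y | y ∈ G ∧ f.1 y = lm U f.1} := by
      intro h
      obtain ⟨U', h4⟩ := ex_ultra _ h
      obtain ⟨f, hf, hf'⟩ := hU' U' (mem_of_superset (h4 0) fun y hy => hy.1)
      exact hf' (lm_eq (mem_of_superset (h4 ⟨f, hf⟩) fun y hy => hy.2))
    push Not at h3
    obtain ⟨F, hF⟩ := h3
    obtain ⟨y', hy1, hy2⟩ := (((eventually_all_finite h1).2 fun h _ =>
      lm_spec U fun y => h (-t + y)).and ((eventually_all_finset F).2 fun f _ =>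
        lm_spec U f.1)).exists
    refine ⟨H ∪ (fun (f : Pol c) y => f.1 (t + y)) '' F, -t + y',
      h1.union (F.finite_toSet.image _), Set.union_subset h2 ?_, fun y hy h hh => ?_,
      fun y hy hy' => ?_⟩
    · rintro _ ⟨f, _, rfl⟩
      exact hP.sh_mem f.2 _
    · rw [hy h (Or.inl hh), hy1 h hh, hU _ ⟨h, hh, rfl⟩]
      simp
    · obtain ⟨f, hf, hf'⟩ := hF (y + t)
      refine hf' ⟨hy', ?_⟩
      have h5 : f.1 (t + y) = f.1 (t + (-t + y')) := hy _ (Or.inr ⟨f, hf, rfl⟩)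
      rw [add_comm, h5, add_neg_cancel_left, hy2 f hf]
  have all : ∀ T : Finset Y, ∃ (H : Set (Y → A)) (y0 : Y), H.Finite ∧ H ⊆ Pol c ∧
      ∀ t ∈ T, ∀ y ∈ At H y0, y + t ∉ G := by
    intro T
    induction T using Finset.induction_on with
    | empty => exact ⟨∅, 0, Set.finite_empty, Set.empty_subset _, by simp⟩
    | insert t T _ ih =>
      obtain ⟨H, y0, h1, h2, h3⟩ := ih
      obtain ⟨H', y1, h4, h5, h6, h7⟩ := step t H y0 h1 h2
      refine ⟨H', y1, h4, h5, fun s hs y hy => ?_⟩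
      rcases Finset.mem_insert.1 hs with rfl | hs
      · exact h7 y hy
      · exact h3 s hs y (h6 hy)
  obtain ⟨T, hT⟩ := hG
  obtain ⟨H, y0, _, _, h3⟩ := all T
  obtain ⟨t, ht, ht'⟩ := hT y0
  exact h3 t ht y0 (fun _ _ => rfl) ht'

theorem Fil.tr_e1 (hP : Fil Pol) {c : ℕ} {V : Ultrafilter Y} (hV : ∀ g ∈ Pol c, lm V g = g 0)
    {f : Y → A} (hf : f ∈ Pol (c + 1)) :
    (tr V : Module.End ℤ (Y → A)) f = f + fun _ => lm V f - f 0 := by
  funext y
  have h := hV _ (hP.sh_sub hf y)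
  rw [lm_sub, Pi.sub_apply, add_zero] at h
  rw [tr_apply, Pi.add_apply, eq_add_of_sub_eq h]
  abel

theorem Fil.lm_e1 (hP : Fil Pol) {c : ℕ} (U : Ultrafilter Y) {V : Ultrafilter Y}
    (hV : ∀ g ∈ Pol c, lm V g = g 0) {f : Y → A} (hf : f ∈ Pol (c + 1)) :
    lm (pl U V) f = lm U f + (lm V f - f 0) := by
  rw [lm_pl, hP.tr_e1 hV hf, lm_add, lm_const]

theorem Fil.red (hP : Fil Pol) {n : ℕ} (hn : 0 < n) (hA : ∀ a : A, n • a = 0) {c : ℕ}
    {g : Y → A} (hg : g ∈ Pol (c + 1))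
    (h : ∀ V : Ultrafilter Y, (∀ f ∈ Pol c, lm V f = f 0) → lm V g = g 0) : g ∈ Red (Pol c) := by
  by_contra hc
  have h1 : ∀ F : Finset (Pol c), ∃ p : Y × Y, ∀ f ∈ F,
      p ∈ {p : Y × Y | f.1 p.1 = f.1 p.2 ∧ g p.1 ≠ g p.2} := by
    intro F
    by_contra h2
    refine hc ⟨Subtype.val '' (F : Set (Pol c)), F.finite_toSet.image _, ?_, fun y y' hy => ?_⟩
    · rintro _ ⟨f, _, rfl⟩
      exact f.2
    · by_contra h3
      exact h2 ⟨(y, y'), fun f hf => ⟨hy _ ⟨f, hf, rfl⟩, h3⟩⟩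
  obtain ⟨Z, hZ⟩ := ex_ultra _ h1
  have h2 : ∀ f ∈ Pol c, lm (Z.map Prod.fst) f = lm (Z.map Prod.snd) f := by
    intro f hf
    rw [lm_map, lm_map]
    exact lm_congr (mem_of_superset (hZ ⟨f, hf⟩) fun p hp => hp.1)
  have h3 : lm (Z.map Prod.fst) g ≠ lm (Z.map Prod.snd) g := by
    rw [lm_map, lm_map]
    obtain ⟨p, ⟨hp1, hp2⟩, hp3⟩ := (((lm_spec Z fun p => g p.1).and
      (lm_spec Z fun p => g p.2)).and (hZ 0)).exists
    rw [← hp1, ← hp2]
    exact hp3.2
  generalize Z.map Prod.fst = U at h2 h3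
  generalize Z.map Prod.snd = U' at h2 h3
  obtain ⟨V, hV⟩ := hP.inv hn hA (c + 1) U
  have h4 : ∀ f ∈ Pol (c + 1), lm (pl V U') f = f 0 + (lm U' f - lm U f) := by
    intro f hf
    have h5 : (tr U' : Module.End ℤ (Y → A)) f =
        (tr U : Module.End ℤ (Y → A)) f + fun _ => lm U' f - lm U f := by
      funext y
      have h6 := h2 _ (hP.sh_sub hf y)
      rw [lm_sub, lm_sub] at h6
      rw [Pi.add_apply, tr_apply, tr_apply, eq_add_of_sub_eq h6]
      abel
    rw [lm_pl, h5, lm_add, lm_const, ← tr_zero, hV f hf]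
  have h5 := h (pl V U') fun f hf => by
    rw [h4 f (hP.mono (Nat.le_succ c) hf), h2 f hf, sub_self, add_zero]
  rw [h4 g hg, add_eq_left, sub_eq_zero] at h5
  exact h3 h5.symm

end Fil

/-- moving a point in the fibre -/
theorem Fil.u1 {Y : Type} [AddCommGroup Y] {n : ℕ} [NeZero n]
    {Pol : ℕ → Submodule ℤ (Y → ZMod n)} (hP : Fil Pol) {c : ℕ}
    {D1 D2 : Submodule ℤ (Y → ZMod n)} (h1 : D1 ≤ Pol (c + 1)) (h2 : D2 ≤ Pol (c + 1))
    (h3 : Red (Pol c) ⊓ Pol (c + 1) ≤ D1) (U : Ultrafilter Y)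
    (h4 : ∀ f ∈ D1, f ∈ D2 → lm U f = 0) :
    ∃ U' : Ultrafilter Y, (∀ f ∈ D1, lm U' f = lm U f) ∧ ∀ f ∈ D2, lm U' f = 0 := by
  classical
  have hn : 0 < n := Nat.pos_of_ne_zero (NeZero.ne n)
  have hA : ∀ a : ZMod n, n • a = 0 := fun a => by simp
  have key : ∀ F : Finset (D1 × D2), ∃ y, ∀ p ∈ F,
      y ∈ {y | (p.1.1 + p.2.1) y = lm U p.1.1} := by
    intro F
    have hm : ∀ p : F, p.1.1.1 + p.1.2.1 ∈ Pol (c + 1) := fun p =>
      add_mem (h1 p.1.1.2) (h2 p.1.2.2)
    let M : AddSubmonoid (F → ZMod n) :=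
      { carrier := {x | ∃ V : Ultrafilter Y, (∀ f ∈ Pol c, lm V f = f 0) ∧
          ∀ p : F, x p = lm V (p.1.1.1 + p.1.2.1) - (p.1.1.1 + p.1.2.1) 0}
        zero_mem' := ⟨pure 0, fun f _ => lm_pure _ _, fun p => by rw [lm_pure, sub_self]; rfl⟩
        add_mem' := by
          rintro x x' ⟨V, hV, hx⟩ ⟨V', hV', hx'⟩
          refine ⟨pl V V', fun f hf => ?_, fun p => ?_⟩
          · rw [hP.lm_e1 V hV' (hP.mono (Nat.le_succ c) hf), hV f hf, hV' f hf, sub_self,
              add_zero]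
          · rw [hP.lm_e1 V hV' (hm p), Pi.add_apply, hx, hx']
            abel }
    let H : AddSubgroup (F → ZMod n) :=
      { M with
        neg_mem' := by
          intro x hx
          have e : -x = (n - 1) • x := by
            rw [neg_eq_iff_add_eq_zero, add_comm, ← succ_nsmul, Nat.sub_add_cancel hn]
            exact funext fun p => hA _
          rw [e]
          exact M.nsmul_mem hx _ }
    have hx : (fun p : F => -lm U p.1.2.1) ∈ H := by
      by_contra hx
      obtain ⟨a, ha, ha'⟩ := dual H _ hx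
      have m1 : ∑ p : F, a p • p.1.1.1 ∈ D1 :=
        Submodule.sum_mem _ fun p _ => D1.smul_mem _ p.1.1.2
      have m2 : ∑ p : F, a p • p.1.2.1 ∈ D2 :=
        Submodule.sum_mem _ fun p _ => D2.smul_mem _ p.1.2.2
      have m3 : ∑ p : F, a p • (p.1.1.1 + p.1.2.1) ∈ Pol (c + 1) :=
        Submodule.sum_mem _ fun p _ => Submodule.smul_mem _ _ (hm p)
      have m4 := h3 ⟨hP.red hn hA m3 fun V hV => by
        have h5 := ha (fun p : F => lm V (p.1.1.1 + p.1.2.1) - (p.1.1.1 + p.1.2.1) 0)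
          ⟨V, hV, fun _ => rfl⟩
        rw [← lmL_apply, map_sum, Finset.sum_apply, ← sub_eq_zero, ← Finset.sum_sub_distrib,
          ← h5]
        refine Finset.sum_congr rfl fun p _ => ?_
        rw [map_smul, smul_sub, lmL_apply]
        rfl, m3⟩
      have m5 : ∑ p : F, a p • p.1.2.1 ∈ D1 := by
        have h5 := D1.sub_mem m4 m1
        simp only [smul_add, Finset.sum_add_distrib, add_sub_cancel_left] at h5
        exact h5
      have h6 := h4 _ m5 m2
      rw [← lmL_apply, map_sum] at h6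
      refine ha' ?_
      simp only [smul_neg, Finset.sum_neg_distrib, neg_eq_zero]
      rw [← h6]
      refine Finset.sum_congr rfl fun p _ => ?_
      rw [map_smul, lmL_apply]
    obtain ⟨V, hV, hx⟩ := hx
    obtain ⟨y, hy⟩ := ((eventually_all_finset F).2 fun p _ =>
      lm_spec (pl U V) (p.1.1 + p.2.1)).exists
    refine ⟨y, fun p hp => (hy p hp).trans ?_⟩
    have h5 : -lm U p.2.1 = _ := hx ⟨p, hp⟩
    rw [hP.lm_e1 U hV (hm ⟨p, hp⟩), ← h5, lm_add, add_neg_cancel_right]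
  obtain ⟨U', hU'⟩ := ex_ultra _ key
  refine ⟨U', fun f hf => lm_eq (mem_of_superset (hU' (⟨f, hf⟩, 0)) fun y hy => ?_),
    fun f hf => lm_eq (mem_of_superset (hU' (0, ⟨f, hf⟩)) fun y hy => ?_)⟩
  · simpa using hy
  · have h5 : (0 + f) y = lm U 0 := hy
    rwa [zero_add, lm_zero] at h5

end Pool.Agent.MP_5c28a4_al.H89S.RlA
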