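import Pool.Agent.MP_5c28a4_al.H68S.Spec

/-!
Section S2: the step in class two.
-/

set_option autoImplicit false

namespace Pool.Agent.MP_5c28a4_al.H89S.StrA

open scoped commutatorElement
open StA

theorem d2 (hV : BVn) (hNk : SNk) (hAlg : SAlg) (hSh : SSh) (hGen : SGen) (hTy : STy) : SD2 := by
  intro Λ u W hW hPU N A _ _ ρ hfg hsol hSa K D c m v hK hB hm hD hD' h2 hv
  have hKn := hK.1
  obtain ⟨M0, T, a1, a2, a3⟩ := hGen N hfg K D c m hK hB hm hD hD'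
  obtain ⟨M1, b1, b2⟩ := hB
  have hP := pw_normal K m
  have hX := pw_normal (pw K m) M1
  obtain ⟨m', n', D2, S, c1, c2, c3, _, c5, c6⟩ := hAlg N hfg K D (pw (pw K m) M1)
    ⁅pw K m, pw K m⁆ c W hK hD hD' hX inferInstance
    (Subgroup.commutator_mono (pw_le _ _) (pw_le _ _))
    (hNk N K (pw K m) _ c M1 hKn hP inferInstance (pw_le _ _) le_rfl b2) hW
  have hZ := pw_normal (pw (pw K m) M1) m'
  have hP1 := itc_normal (pw (pw (pw K m) M1) m') D2 n'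
  have hle : itc (pw (pw (pw K m) M1) m') D2 n' ≤ pw K m :=
    (itc_le _ _ _).trans ((pw_le _ _).trans (pw_le _ _))
  obtain ⟨n1, d1, d2⟩ := hSh N hsol n' (m * M1 * m') (K ⊓ D2) D2 _ _ inferInstance c2 hZ hP1
    inf_le_right (by positivity) (fun x hx => by
      rw [pow_mul, pow_mul]
      exact pow_mem_pw (pow_mem_pw (pow_mem_pw hx.1 m) M1) m') le_rfl
  generalize itc (pw (pw (pw K m) M1) m') D2 n' = P1 at c6 hP1 hle d2
  obtain ⟨M, e1, e2⟩ := hTy Λ u W hPU N A ρ hSa (pw K m) D P1 (pw (pw K m) M0) v S T hP hD hP1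
    ((Group.fg_iff_subgroup_fg D).1 inferInstance) h2 hv c5 a2
    (c6.trans (sup_le_sup_left (Subgroup.closure_mono (by
      rintro _ ⟨z, hz, b, hb, rfl⟩
      exact ⟨z, hz, b, pw_le _ _ hb, rfl⟩)) _)) a3
  have hP0 := pw_normal (pw K m) M0
  have hY := pw_normal ⁅P1, pw (pw K m) M0⁆ M
  have h3 : pw (itc (K ⊓ D2) D2 n') (n1 * (M0 * M)) ≤ pw P1 (M0 * M) :=
    (pw_mul _ _ _).trans (pw_mono (pw_le_iff.2 d2) _)
  refine ⟨_, itc (K ⊓ D2) D2 n', n1 * (M0 * M), itc_normal _ _ _, e2,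
    (itc_le _ _ _).trans inf_le_left,
    hV.itc N _ D2 n' (hV.inf N K D2 hK (covn_of_fi D2 c2 c3)) c2 c3, by positivity,
    h3.trans ((pw_le _ _).trans hle), itc_mono ?_ le_rfl v⟩
  refine (Subgroup.commutator_mono (h3.trans (pw_dvd _ (Dvd.intro_left _ rfl)))
    (h3.trans ((pw_dvd _ (Dvd.intro _ rfl)).trans (pw_mono hle _)))).trans ?_
  refine comm_closure _ _ _ ?_
  rintro _ ⟨y, hy, rfl⟩ z hz
  rw [Ut3A.comm_pow_left (Ut3A.cm_of_lcs_two h2) le_rfl (hle hy) (pw_le _ _ hz)]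
  exact pow_mem_pw (Subgroup.commutator_mem_commutator hy hz) M

end Pool.Agent.MP_5c28a4_al.H89S.StrA
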