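import Pool.Agent.MP_5c28a4_al.H13S.Base

/-!
The uniformity lemma.
-/

set_option autoImplicit false

namespace Pool.Agent.MP_5c28a4_al.H89S.StrA

namespace UniA

theorem comb {κ T : Type} (σ : (T → κ) → T) : ∃ t, ∀ k, ∃ χ, σ χ = t ∧ χ t = k := by
  by_contra h
  push Not at h
  choose k hk using h
  exact hk (σ k) k rfl rfl

theorem pigeon {κ : Type} [Fintype κ] (χ : Fin (Fintype.card κ + 1) → κ) :
    ∃ (t : Bool → Fin (Fintype.card κ + 1)) (s c : ℕ), χ (t true) = χ (t false) ∧
      (t true : ℕ) = t false + s ∧ c * s = (Fintype.card κ + 1).factorial := by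
  obtain ⟨x, y, h1, h2⟩ := Fintype.exists_ne_map_eq_of_card_lt χ (by simp)
  wlog h : x < y generalizing x y
  · exact this y x h1.symm h2.symm (lt_of_le_of_ne (not_lt.1 h) h1.symm)
  have h3 : (x : ℕ) < y := h
  have h4 := y.2
  refine ⟨fun b => if b then y else x, y - x, (Fintype.card κ + 1).factorial / (y - x),
    h2.symm, ?_, Nat.div_mul_cancel (Nat.dvd_factorial (by omega) (by omega))⟩
  simp only [if_true, Bool.false_eq_true, if_false]
  omega

variable {N M R : Type} [Group N] [AddCommGroup M] [CommRing R]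

theorem split {e : M → R} (h0 : e 0 = 1) (h1 : ∀ x y, e (x + y) = e x * e y) (c : ℕ)
    (u : Bool → M) : ∃ g : Bool → R, (∀ b, e (u b) - 1 ∣ g b) ∧
      e (c • (u true - u false)) - 1 = ∑ b, g b := by
  have h2 : ∀ x, e x - 1 ∣ e (c • x) - 1 := by
    intro x
    have h3 : ∀ k : ℕ, e (k • x) = e x ^ k := fun k => by
      induction k with
      | zero => rw [zero_nsmul, h0, pow_zero]
      | succ k ih => rw [succ_nsmul, h1, ih, pow_succ]
    rw [h3]
    exact sub_one_dvd_pow_sub_one _ _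
  refine ⟨fun b => if b then e (c • u true) - 1
    else -e (c • (u true - u false)) * (e (c • u false) - 1), fun b => ?_, ?_⟩
  · cases b
    · exact Dvd.dvd.mul_left (h2 _) _
    · exact h2 _
  · have h3 := h1 (c • (u true - u false)) (c • u false)
    rw [← smul_add, sub_add_cancel] at h3
    simp only [Fintype.sum_bool, if_true, Bool.false_eq_true, if_false, h3]
    ring

theorem lin {τ : Representation ℤ N M} {D : Subgroup N} {F : ℕ → Submodule ℤ M}
    (hF : ∀ j, ∀ d ∈ D, ∀ x ∈ F (j + 1), τ d x - x ∈ F j) {v : ℕ} {x : M} (hx : x ∈ F (v + 2))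
    {d : N} (hd : d ∈ D) (t s : ℕ) :
    s • (τ d x - x) - (τ (d ^ (t + s)) x - τ (d ^ t) x) ∈ F v := by
  induction s with
  | zero => simp
  | succ s ih =>
    have h := hF v _ (D.pow_mem hd (t + s)) _ (hF (v + 1) d hd x hx)
    have e : τ (d ^ (t + (s + 1))) x = τ (d ^ (t + s)) (τ d x) := by
      rw [← add_assoc, pow_succ, map_mul, Module.End.mul_apply]
    rw [map_sub] at h
    rw [e, succ_nsmul]
    convert (F v).sub_mem ih h using 1
    abel

theorem core {τ : Representation ℤ N M} {D : Subgroup N} {F : ℕ → Submodule ℤ M} (hF0 : F 0 = ⊥)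
    (hF : ∀ j, ∀ d ∈ D, ∀ x ∈ F (j + 1), τ d x - x ∈ F j) {e : M → R} (h0 : e 0 = 1)
    (h1 : ∀ x y, e (x + y) = e x * e y) (a : R) (v : ℕ) :
    ∀ (κ : Type) [Fintype κ] (W : κ → Set M) (W' : Set M), (∀ k, ∀ x ∈ W k, x ∈ F (v + 1)) →
    (∀ δ ∈ D, ∀ y : κ → M, (∀ k, y k ∈ W k) → a * ∏ k, (e (τ δ (y k)) - 1) = 0) →
    (∀ k, ∀ y ∈ W', ∃ x ∈ W k, y - x ∈ F v) → ∀ l : List N, l.length = v → (∀ d ∈ l, d ∈ D) →
    ∃ j n : ℕ, 0 < j ∧ ∀ y : Fin n → M, (∀ i, y i ∈ W') →
      a * ∏ i, (e (j • wd τ l (y i)) - 1) = 0 := by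
  classical
  induction v with
  | zero =>
    intro κ _ W W' _ h3 h4 l hl _
    obtain rfl := List.length_eq_zero_iff.1 hl
    refine ⟨1, Fintype.card κ, one_pos, fun y hy => ?_⟩
    have h5 := h3 1 D.one_mem (fun k => y (Fintype.equivFin κ k)) fun k => by
      obtain ⟨x, hx, hx'⟩ := h4 k _ (hy (Fintype.equivFin κ k))
      rw [hF0, Submodule.mem_bot, sub_eq_zero] at hx'
      rwa [hx']
    rw [← (Fintype.equivFin κ).prod_comp]
    simpa using h5
  | succ v ih =>
    intro κ _ W W' h2 h3 h4 l hl hD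
    obtain ⟨l', d, rfl⟩ := (List.eq_nil_or_concat' l).resolve_left (by rintro rfl; simp at hl)
    have hd : d ∈ D := hD d (by simp)
    choose t s c a1 a2 a3 using pigeon (κ := κ)
    obtain ⟨j, n, hj, h5⟩ := ih (Fin (Fintype.card κ + 1) → κ)
      (fun χ => {y | ∃ x ∈ W (χ (t χ true)),
        y = c χ • (τ (d ^ (t χ true : ℕ)) x - τ (d ^ (t χ false : ℕ)) x)})
      {z | ∃ y ∈ W', z = (Fintype.card κ + 1).factorial • (τ d y - y)}
      (by
        rintro χ _ ⟨x, hx, rfl⟩
        refine nsmul_mem ?_ _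
        have h6 := (F (v + 1)).sub_mem (hF _ _ (D.pow_mem hd (t χ true : ℕ)) x (h2 _ x hx))
          (hF _ _ (D.pow_mem hd (t χ false : ℕ)) x (h2 _ x hx))
        rwa [sub_sub_sub_cancel_right] at h6)
      (by
        intro δ hδ y hy
        choose x hx hy using hy
        choose g b1 b2 using fun χ : Fin (Fintype.card κ + 1) → κ =>
          split h0 h1 (c χ) fun b => τ (δ * d ^ (t χ b : ℕ)) (x χ)
        have h6 : ∀ χ, e (τ δ (y χ)) - 1 = ∑ b, g χ b := fun χ => by
          rw [← b2, hy, map_nsmul, map_sub]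
          simp only [map_mul, Module.End.mul_apply]
        simp only [h6]
        rw [Finset.prod_univ_sum, Finset.mul_sum]
        refine Finset.sum_eq_zero fun σ _ => ?_
        obtain ⟨t0, ht0⟩ := comb fun χ => t χ (σ χ)
        choose q q1 q2 using ht0
        have q3 : Function.Injective q := fun k k' h => by rw [← q2 k, ← q2 k', h]
        have h7 := h3 _ (D.mul_mem hδ (D.pow_mem hd (t0 : ℕ))) (fun k => x (q k)) fun k => by
          have h8 := hx (q k)
          have h9 : q k (t (q k) true) = q k (t (q k) (σ (q k))) := by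
            cases σ (q k)
            · exact a1 _
            · rfl
          rwa [h9, q1, q2] at h8
        have h8 : ∏ k, (e (τ (δ * d ^ (t0 : ℕ)) (x (q k))) - 1) ∣ ∏ χ, g χ (σ χ) := by
          refine dvd_trans (Finset.prod_dvd_prod_of_dvd _ (fun k => g (q k) (σ (q k)))
            fun k _ => ?_) ?_
          · have h9 := b1 (q k) (σ (q k))
            rwa [q1] at h9
          · rw [← Finset.prod_image (g := q) (f := fun χ => g χ (σ χ)) q3.injOn]
            exact Finset.prod_dvd_prod_of_subset _ _ _ (Finset.subset_univ _)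
        obtain ⟨z, hz⟩ := h8
        rw [hz, ← mul_assoc, h7, zero_mul])
      (by
        rintro χ _ ⟨y, hy, rfl⟩
        obtain ⟨x, hx, hx'⟩ := h4 (χ (t χ true)) y hy
        refine ⟨_, ⟨x, hx, rfl⟩, ?_⟩
        have h6 := (F v).add_mem (nsmul_mem (lin hF (h2 _ x hx) hd (t χ false) (s χ)) (c χ))
          (nsmul_mem (hF v d hd _ hx') (Fintype.card κ + 1).factorial)
        rw [← a2, smul_sub, ← mul_nsmul', a3, map_sub] at h6
        convert h6 using 1
        simp only [smul_sub]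
        abel)
      l' (by simpa using hl) fun z hz => hD z (by simp [hz])
    refine ⟨j * (Fintype.card κ + 1).factorial, n, Nat.mul_pos hj (Nat.factorial_pos _),
      fun y hy => ?_⟩
    have h6 := h5 _ fun i => ⟨y i, hy i, rfl⟩
    simpa only [wd_append, wd_cons, wd_nil, mul_one, Module.End.mul_apply, LinearMap.sub_apply,
      Module.End.one_apply, map_nsmul, mul_nsmul'] using h6

end UniA

theorem uni (hS : XSum) : XUni := by
  intro N A M _ _ _ ρ τ f B D F a r v W W' hB hc hf hF0 hF h2 h3 h4 l hl hD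
  obtain ⟨R, _, ψ, e, hψ, he⟩ := hS.bridge N A ρ B hc
  choose g g1 g2 using hf.surj
  have g3 : ∀ x ∈ B, g (f x) = x := fun x hx => hf.inj (g1 _) hx (g2 _)
  have key : ∀ (n : ℕ) (y : Fin n → N), (∀ i, y i ∈ B) →
      ψ (a * ∏ i, (e (y i) - 1)) = a • wd ρ (List.ofFn y) := by
    intro n y hy
    rw [map_mul, map_intCast, zsmul_eq_mul, ← List.prod_ofFn, map_list_prod, wd, List.map_ofFn,
      List.map_ofFn]
    congr 3
    funext i
    simp [he _ (hy i)]
  obtain ⟨j, n, hj, h5⟩ := UniA.core hF0 hF (e := fun x => e (g x))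
    (hψ (by rw [← hf.one, g3 _ B.one_mem, he _ B.one_mem, map_one, map_one]))
    (fun x y => hψ (by
      have h : g (x + y) = g x * g y := by
        rw [← g3 _ (B.mul_mem (g1 x) (g1 y)), hf.add _ (g1 x) _ (g1 y), g2, g2]
      rw [map_mul, he _ (g1 _), he _ (g1 _), he _ (g1 _), h, map_mul]))
    (a : R) v (Fin r) (fun k => f '' W k) W'
    (by
      rintro k _ ⟨x, hx, rfl⟩
      exact (h2 k x hx).2)
    (by
      intro δ _ y hy
      choose x hx hy using hy
      have h6 : ∀ k, g (τ δ (y k)) = δ * x k * δ⁻¹ := fun k => by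
        rw [← hy, ← hf.conj _ _ (h2 k _ (hx k)).1, g3 _ (hB.conj_mem _ (h2 k _ (hx k)).1 δ)]
      simp only [h6]
      refine hψ ?_
      rw [key r _ fun k => hB.conj_mem _ (h2 k _ (hx k)).1 δ, map_zero]
      have h7 := wd_conj (ρ := ρ) δ (List.ofFn x)
      rw [List.map_ofFn] at h7
      have h8 : wd ρ (List.ofFn fun k => δ * x k * δ⁻¹) = ρ δ * wd ρ (List.ofFn x) * ρ δ⁻¹ := by
        rw [h7, mul_assoc, ← map_mul, mul_inv_cancel, map_one, mul_one]
        rfl
      rw [h8, ← smul_mul_assoc, ← mul_smul_comm, h3 x hx, mul_zero, zero_mul])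
    (fun k y hy => by
      obtain ⟨x, hx, hx'⟩ := h4 k y hy
      exact ⟨_, ⟨x, hx, rfl⟩, hx'⟩) l hl hD
  refine ⟨j, n, hj, kill_iff.2 fun l' hl' hy => ?_⟩
  subst hl'
  choose y y1 y2 using fun i : Fin l'.length => (hy _ (l'.get_mem i)).2
  have h6 := h5 y y1
  simp only [← y2, fun i : Fin l'.length => g3 _ (hy _ (l'.get_mem i)).1] at h6
  rw [← List.ofFn_get l', ← key _ _ fun i => (hy _ (l'.get_mem i)).1, h6, map_zero]

end Pool.Agent.MP_5c28a4_al.H89S.StrA
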